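import Pool.Agent.Lib.MP_a8a7e3_hf.ForceMain
import Pool.Agent.Lib.MP_a8a7e3_hf.Index
import Pool.Agent.Lib.MP_a8a7e3_hf.Z4

set_option autoImplicit false

/-!
# Monotone `Π⁰₃` hulls without monotone `Σ⁰₂` hulls

A statement about the extension by a poset `P` is given by its truth value, the predicate on `P`
which says which conditions force it.  The predicates `fAnd`, `fImp`, `fAll`, `fEx` are the clauses
of the forcing relation; `FunName` is the type of names of functions between ground model sets.

Start with a model of `ZFC + CH + 2^(ℵ_ω) = ℵ_(ω+1)`, for example a model of GCH.  By part (1) there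
is a poset which forces `HechlerPrinciple`: the collapse of `ω₁` to `ω` followed by a finite support
iteration of Hechler forcing along a well-founded poset.  By part (2), a theorem of ZFC applied in
the extension, there is a monotone `Π⁰₃` hull operation and no monotone `Σ⁰₂` hull operation there.
-/

namespace Pool.Agent.Results.MP_a8a7e3_lc.HechlerModel

open Cardinal Pool.Agent.HF Pool.Agent.MP_a8a7e3

/-- (1) If CH holds and `2^(ℵ_ω) = ℵ_(ω+1)`, then there are well-orders `Ω₂`, `K 0, K 1, …`, a
well-founded poset `R` and maps `π i : R → K i` such that the poset `HPoset Ω₁ R` is nonempty and all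
of its conditions force the Hechler principle for these data.
(2) The Hechler principle implies that there is a monotone `Π⁰₃` hull operation on the sets with the
Baire property (with respect to the meager sets), but no monotone `Σ⁰₂` hull operation. -/
theorem result :
    (Cardinal.continuum = ℵ₁ → (2 : Cardinal.{0}) ^ ℵ_ Ordinal.omega0 = ℵ_ (Ordinal.omega0 + 1) →
      ∃ (Ω₁ Ω₂ R : Type) (_ : LinearOrder Ω₂) (_ : WellFoundedLT Ω₂) (_ : PartialOrder R)
        (_ : WellFoundedLT R) (K : ℕ → Type) (_ : ∀ i, LinearOrder (K i))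
        (_ : ∀ i, WellFoundedLT (K i)) (π : ∀ i, R → K i),
        Nonempty (HPoset Ω₁ R) ∧
          ∀ p : HPoset Ω₁ R, fHechlerPrinciple (HPoset Ω₁ R) Ω₂ R K π p) ∧
    (HechlerPrinciple →
      (∃ ψ, IsMonotoneHullOnBaire IsPi3 ψ) ∧ ¬ ∃ ψ, IsMonotoneHullOnBaire IsSigma2 ψ) := by
  refine ⟨fun hCH h2 => ?_, Pool.Agent.HFZ.hulls⟩
  obtain ⟨Ω₁, Ω₂, R, i1, i2, i3, i4, K, i5, i6, π, h⟩ := Pool.Agent.HFC.exists_index hCH h2
  exact ⟨Ω₁, Ω₂, R, i1, i2, i3, i4, K, i5, i6, π, ⟨Raw.triv ⟨[]⟩⟩, fHechlerPrinciple_poset h⟩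

end Pool.Agent.Results.MP_a8a7e3_lc.HechlerModel
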