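import Pool.Agent.Lib.MP_a8a7e3_lc.NoHull
import Pool.Agent.Lib.MP_a8a7e3_lc.T13

set_option autoImplicit false

open Set Topology Filter Cardinal

namespace Pool.Agent.Results.MP_a8a7e3_lc.RankObstruction

open Pool.Agent.MP_a8a7e3

/-- If there is a monotone `Σ⁰₂` hull operation on the sets with the Baire property, then there are
only finitely many regular uncountable cardinals `κ` for which the meager ideal carries a monotone,
countably subadditive and unbounded rank with values below `κ`. -/
theorem result (hull : ∃ ψ, IsMonotoneHullOnBaire IsSigma2 ψ) :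
    {κ : Cardinal.{0} | κ.IsRegular ∧ ℵ₀ < κ ∧ ∃ r : Set ℝ → Ordinal.{0}, IsRank κ r ∧
      ∀ α < κ.ord, ∃ A, IsMeagre A ∧ α < r A}.Finite := by
  by_contra hinf
  have hinf' := Set.not_finite.mp hinf
  let f := hinf'.natEmbedding
  obtain ⟨g, hg, hlt⟩ := T13_seq (fun a b : Cardinal.{0} => a < b) (fun n => (f n : Cardinal.{0}))
    (fun a b hab => f.injective (Subtype.ext hab))
  have hk : ∀ n, (f (g n) : Cardinal.{0}).IsRegular ∧ ℵ₀ < (f (g n) : Cardinal.{0}) ∧
      ∃ r : Set ℝ → Ordinal.{0}, IsRank (f (g n) : Cardinal.{0}) r ∧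
      ∀ α < (f (g n) : Cardinal.{0}).ord, ∃ A, IsMeagre A ∧ α < r A := fun n => (f (g n)).2
  choose h1 h2 r hr hu using hk
  exact no_hull_real (fun n => (f (g n) : Cardinal.{0})) h1 (h2 0) (fun a b hab => hlt a b hab) r hr
    hu hull

end Pool.Agent.Results.MP_a8a7e3_lc.RankObstruction
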