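import Mathlib

set_option autoImplicit false

open Set

namespace Pool.Agent.Results.MP_a8a7e3_lc.StableHull

/-- `A` has the Baire property: `A` differs from some open set by a meager set. -/
def HasBaireProperty (A : Set ℝ) : Prop :=
  ∃ G : Set ℝ, IsOpen G ∧ IsMeagre (symmDiff A G)

/-- `A` is a `Σ⁰₂` set, i.e. a countable union of closed sets. -/
def IsSigma2 (A : Set ℝ) : Prop :=
  ∃ F : ℕ → Set ℝ, (∀ n, IsClosed (F n)) ∧ A = ⋃ n, F n

/-- `ψ` is a monotone `Σ⁰₂` hull operation on the sets with the Baire property, with respect to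
the ideal of meager sets (values of `ψ` at other sets are irrelevant). -/
def IsMonotoneSigma2HullOnBaire (ψ : Set ℝ → Set ℝ) : Prop :=
  (∀ A, HasBaireProperty A → IsSigma2 (ψ A) ∧ A ⊆ ψ A ∧ IsMeagre (ψ A \ A)) ∧
    ∀ A B, HasBaireProperty A → HasBaireProperty B → A ⊆ B → ψ A ⊆ ψ B

/-! ### Basic facts on `Σ⁰₂` sets -/

lemma IsSigma2.of_isClosed {A : Set ℝ} (hA : IsClosed A) : IsSigma2 A :=
  ⟨fun _ => A, fun _ => hA, (iUnion_const A).symm⟩

lemma IsSigma2.empty : IsSigma2 (∅ : Set ℝ) := IsSigma2.of_isClosed isClosed_empty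

lemma IsSigma2.iUnion {A : ℕ → Set ℝ} (hA : ∀ n, IsSigma2 (A n)) : IsSigma2 (⋃ n, A n) := by
  choose F hF hAF using hA
  refine ⟨fun k => F k.unpair.1 k.unpair.2, fun k => hF _ _, ?_⟩
  ext x
  simp only [mem_iUnion]
  constructor
  · rintro ⟨n, hx⟩
    rw [hAF n, mem_iUnion] at hx
    obtain ⟨m, hm⟩ := hx
    exact ⟨Nat.pair n m, by simpa using hm⟩
  · rintro ⟨k, hk⟩
    refine ⟨k.unpair.1, ?_⟩
    rw [hAF, mem_iUnion]
    exact ⟨_, hk⟩

lemma IsSigma2.union {A B : Set ℝ} (hA : IsSigma2 A) (hB : IsSigma2 B) : IsSigma2 (A ∪ B) := by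
  have h : A ∪ B = ⋃ n : ℕ, (if n = 0 then A else B) := by
    ext x
    simp only [mem_union, mem_iUnion]
    constructor
    · rintro (h | h)
      · exact ⟨0, by simpa using h⟩
      · exact ⟨1, by simpa using h⟩
    · rintro ⟨n, hn⟩
      split_ifs at hn
      · exact Or.inl hn
      · exact Or.inr hn
  rw [h]
  refine IsSigma2.iUnion fun n => ?_
  split_ifs
  · exact hA
  · exact hB

lemma IsSigma2.inter {A B : Set ℝ} (hA : IsSigma2 A) (hB : IsSigma2 B) : IsSigma2 (A ∩ B) := by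
  obtain ⟨F, hF, rfl⟩ := hA
  obtain ⟨G, hG, rfl⟩ := hB
  have h : (⋃ n, F n) ∩ (⋃ n, G n) = ⋃ n : ℕ, ⋃ m : ℕ, F n ∩ G m := by
    ext x
    simp only [mem_inter_iff, mem_iUnion]
    constructor
    · rintro ⟨⟨n, hn⟩, ⟨m, hm⟩⟩
      exact ⟨n, m, hn, hm⟩
    · rintro ⟨n, m, hn, hm⟩
      exact ⟨⟨n, hn⟩, ⟨m, hm⟩⟩
  rw [h]
  exact IsSigma2.iUnion fun n => IsSigma2.iUnion fun m => IsSigma2.of_isClosed ((hF n).inter (hG m))

lemma IsSigma2.iUnion_of_countable {ι : Type*} {A : ι → Set ℝ} {S : Set ι} (hS : S.Countable)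
    (hA : ∀ i ∈ S, IsSigma2 (A i)) : IsSigma2 (⋃ i ∈ S, A i) := by
  rcases S.eq_empty_or_nonempty with rfl | hne
  · simpa using IsSigma2.empty
  · obtain ⟨f, rfl⟩ := hS.exists_eq_range hne
    rw [biUnion_range]
    exact IsSigma2.iUnion fun n => hA _ ⟨n, rfl⟩

/-- Open subsets of the line are `Σ⁰₂`. -/
lemma IsSigma2.of_isOpen {A : Set ℝ} (hA : IsOpen A) : IsSigma2 A := by
  obtain ⟨F, hF, -, hU, -⟩ := hA.exists_iUnion_isClosed
  exact ⟨F, hF, hU.symm⟩

/-! ### The largest open set on which a set is meager -/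

/-- The union of all open sets `V` with `A ∩ V` meager. -/
def mgOpen (A : Set ℝ) : Set ℝ := ⋃₀ {V : Set ℝ | IsOpen V ∧ IsMeagre (A ∩ V)}

lemma isOpen_mgOpen (A : Set ℝ) : IsOpen (mgOpen A) :=
  isOpen_sUnion fun _ hV => hV.1

lemma subset_mgOpen {A V : Set ℝ} (hV : IsOpen V) (hm : IsMeagre (A ∩ V)) : V ⊆ mgOpen A :=
  subset_sUnion_of_mem (show V ∈ {V : Set ℝ | IsOpen V ∧ IsMeagre (A ∩ V)} from ⟨hV, hm⟩)

lemma isMeagre_inter_mgOpen (A : Set ℝ) : IsMeagre (A ∩ mgOpen A) := by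
  obtain ⟨T, hTc, hTS, hT⟩ := TopologicalSpace.isOpen_sUnion_countable
    {V : Set ℝ | IsOpen V ∧ IsMeagre (A ∩ V)} (fun V hV => hV.1)
  have h : A ∩ mgOpen A = ⋃ V ∈ T, A ∩ V := by
    rw [mgOpen, ← hT, sUnion_eq_biUnion, inter_iUnion₂]
  rw [h]
  exact isMeagre_biUnion hTc fun V hV => (hTS hV).2

lemma mgOpen_anti {A B : Set ℝ} (h : A ⊆ B) : mgOpen B ⊆ mgOpen A :=
  subset_mgOpen (isOpen_mgOpen B)
    ((isMeagre_inter_mgOpen B).mono (inter_subset_inter_left _ h))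

lemma isMeagre_closure_diff {U : Set ℝ} (hU : IsOpen U) : IsMeagre (closure U \ U) := by
  apply IsNowhereDense.isMeagre
  have hc : IsClosed (closure U \ U) := isClosed_closure.sdiff hU
  rw [hc.isNowhereDense_iff, eq_empty_iff_forall_notMem]
  intro x hx
  have hx' : x ∈ closure U := (interior_subset hx).1
  obtain ⟨y, hy1, hy2⟩ := mem_closure_iff.mp hx' _ isOpen_interior hx
  exact absurd hy2 (interior_subset hy1).2

lemma isMeagre_compl_mgOpen_diff {A : Set ℝ} (hA : HasBaireProperty A) :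
    IsMeagre ((mgOpen A)ᶜ \ A) := by
  obtain ⟨U, hU, hAU⟩ := hA
  have h1 : (closure U)ᶜ ⊆ mgOpen A := by
    apply subset_mgOpen isClosed_closure.isOpen_compl
    refine hAU.mono ?_
    intro x hx
    exact Or.inl ⟨hx.1, fun h => hx.2 (subset_closure h)⟩
  refine ((isMeagre_closure_diff hU).union hAU).mono ?_
  intro x hx
  have hxU : x ∈ closure U := by
    by_contra h
    exact hx.1 (h1 h)
  by_cases h : x ∈ U
  · exact Or.inr (Or.inr ⟨h, hx.2⟩)
  · exact Or.inl ⟨hxU, h⟩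

lemma hasBaireProperty_of_isMeagre {A : Set ℝ} (hA : IsMeagre A) : HasBaireProperty A :=
  ⟨∅, isOpen_empty, by rw [show symmDiff A ∅ = A from symmDiff_bot A]; exact hA⟩

/-! ### The local version of a monotone map -/

/-- The local version of a set map `H`: the points `x` of `mgOpen A` that belong to `H (A ∩ W)` for
every open `W ∋ x` with `A ∩ W` meager. -/
def loc (H : Set ℝ → Set ℝ) (A : Set ℝ) : Set ℝ :=
  {x | x ∈ mgOpen A ∧ ∀ W : Set ℝ, IsOpen W → x ∈ W → IsMeagre (A ∩ W) → x ∈ H (A ∩ W)}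

lemma loc_subset (H : Set ℝ → Set ℝ) (A : Set ℝ) : loc H A ⊆ H (A ∩ mgOpen A) :=
  fun _ hx => hx.2 _ (isOpen_mgOpen A) hx.1 (isMeagre_inter_mgOpen A)

lemma loc_mono {H : Set ℝ → Set ℝ} (hmono : ∀ A B, IsMeagre B → A ⊆ B → H A ⊆ H B)
    {A B : Set ℝ} (h : A ⊆ B) : loc H A ∩ mgOpen B ⊆ loc H B := by
  rintro x ⟨hx, hxB⟩
  refine ⟨hxB, fun W hW hxW hm => ?_⟩
  have hs : A ∩ W ⊆ B ∩ W := inter_subset_inter_left _ h
  exact hmono _ _ hm hs (hx.2 W hW hxW (hm.mono hs))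

/-- The set of points of `V` at which the value of `H (A ∩ ·)` does not change any more when `V` is
replaced by a smaller open neighbourhood. -/
def stab (H : Set ℝ → Set ℝ) (A V : Set ℝ) : Set ℝ :=
  {x | x ∈ V ∧ ∀ W : Set ℝ, IsOpen W → x ∈ W → W ⊆ V → H (A ∩ W) = H (A ∩ V)}

lemma isSigma2_stab (H : Set ℝ → Set ℝ) (A : Set ℝ) {V : Set ℝ} (hV : IsOpen V) :
    IsSigma2 (stab H A V) := by
  have hO : IsOpen (V \ stab H A V) := by
    rw [isOpen_iff_mem_nhds]
    rintro x ⟨hxV, hx⟩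
    have : ∃ W : Set ℝ, IsOpen W ∧ x ∈ W ∧ W ⊆ V ∧ H (A ∩ W) ≠ H (A ∩ V) := by
      by_contra hcon
      push Not at hcon
      exact hx ⟨hxV, hcon⟩
    obtain ⟨W, hW, hxW, hWV, hne⟩ := this
    refine Filter.mem_of_superset (hW.mem_nhds hxW) ?_
    intro y hy
    exact ⟨hWV hy, fun hs => hne (hs.2 W hW hy hWV)⟩
  have h : stab H A V = V ∩ (V \ stab H A V)ᶜ := by
    ext x
    constructor
    · intro hx
      exact ⟨hx.1, fun h => h.2 hx⟩
    · rintro ⟨hxV, hx⟩
      by_contra hcon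
      exact hx ⟨hxV, hcon⟩
  rw [h]
  exact (IsSigma2.of_isOpen hV).inter (IsSigma2.of_isClosed hO.isClosed_compl)

lemma isSigma2_loc {H : Set ℝ → Set ℝ} (hmono : ∀ A B, IsMeagre B → A ⊆ B → H A ⊆ H B)
    (hsig : ∀ A, IsMeagre A → IsSigma2 (H A))
    (hstab : ∀ A, IsMeagre A → ∀ x : ℝ, ∃ N : ℕ, ∀ n ≥ N,
      H (A ∩ Metric.ball x (1 / ((n : ℝ) + 1))) = H (A ∩ Metric.ball x (1 / ((N : ℝ) + 1))))
    (A : Set ℝ) : IsSigma2 (loc H A) := by
  classical
  obtain ⟨b, hbc, -, hb⟩ := TopologicalSpace.exists_countable_basis ℝ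
  set S : Set (Set ℝ) := {V | V ∈ b ∧ IsMeagre (A ∩ V)} with hS
  have hSc : S.Countable := hbc.mono fun V hV => hV.1
  have hkey : loc H A = ⋃ V ∈ S, stab H A V ∩ H (A ∩ V) := by
    ext x
    simp only [mem_iUnion, exists_prop]
    constructor
    · intro hx
      -- a stable neighbourhood of `x`
      obtain ⟨N, hN⟩ := hstab (A ∩ mgOpen A) (isMeagre_inter_mgOpen A) x
      have hnhds : Metric.ball x (1 / ((N : ℝ) + 1)) ∩ mgOpen A ∈ nhds x :=
        Filter.inter_mem (Metric.ball_mem_nhds x (by positivity))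
          ((isOpen_mgOpen A).mem_nhds hx.1)
      obtain ⟨V, hVb, hxV, hVsub⟩ := hb.mem_nhds_iff.mp hnhds
      have hVopen : IsOpen V := hb.isOpen hVb
      have hVm : IsMeagre (A ∩ V) := (isMeagre_inter_mgOpen A).mono
        (inter_subset_inter_right _ fun y hy => (hVsub hy).2)
      have hAV : ∀ W ⊆ V, A ∩ W = A ∩ mgOpen A ∩ W := by
        intro W hW
        ext y
        simp only [mem_inter_iff]
        constructor
        · rintro ⟨h1, h2⟩
          exact ⟨⟨h1, (hVsub (hW h2)).2⟩, h2⟩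
        · rintro ⟨⟨h1, -⟩, h2⟩
          exact ⟨h1, h2⟩
      have hst : x ∈ stab H A V := by
        refine ⟨hxV, fun W hW hxW hWV => ?_⟩
        obtain ⟨ε, hε, hball⟩ := Metric.isOpen_iff.mp hW x hxW
        obtain ⟨m, hm⟩ := exists_nat_one_div_lt hε
        set n := max m N with hn
        have hnN : n ≥ N := le_max_right _ _
        have hbW : Metric.ball x (1 / ((n : ℝ) + 1)) ⊆ W := by
          refine (Metric.ball_subset_ball ?_).trans hball
          have : (m : ℝ) ≤ n := by exact_mod_cast le_max_left m N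
          calc 1 / ((n : ℝ) + 1) ≤ 1 / ((m : ℝ) + 1) := by
                apply one_div_le_one_div_of_le <;> [positivity; linarith]
            _ ≤ ε := hm.le
        have hVN : V ⊆ Metric.ball x (1 / ((N : ℝ) + 1)) := fun y hy => (hVsub hy).1
        have hmN : IsMeagre (A ∩ mgOpen A ∩ Metric.ball x (1 / ((N : ℝ) + 1))) :=
          (isMeagre_inter_mgOpen A).inter
        have e1 : H (A ∩ mgOpen A ∩ Metric.ball x (1 / ((n : ℝ) + 1))) ⊆ H (A ∩ W) := by
          rw [hAV W hWV]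
          exact hmono _ _ ((isMeagre_inter_mgOpen A).inter) (inter_subset_inter_right _ hbW)
        have e2 : H (A ∩ V) ⊆ H (A ∩ mgOpen A ∩ Metric.ball x (1 / ((N : ℝ) + 1))) := by
          rw [hAV V subset_rfl]
          exact hmono _ _ hmN (inter_subset_inter_right _ hVN)
        have e3 : H (A ∩ W) ⊆ H (A ∩ V) := hmono _ _ hVm (inter_subset_inter_right _ hWV)
        refine subset_antisymm e3 (e2.trans ?_)
        rw [← hN n hnN]
        exact e1
      exact ⟨V, ⟨hVb, hVm⟩, hst, hx.2 V hVopen hxV hVm⟩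
    · rintro ⟨V, ⟨hVb, hVm⟩, hst, hxH⟩
      have hVopen : IsOpen V := hb.isOpen hVb
      refine ⟨subset_mgOpen hVopen hVm hst.1, fun W hW hxW hWm => ?_⟩
      have h1 : H (A ∩ (W ∩ V)) = H (A ∩ V) :=
        hst.2 (W ∩ V) (hW.inter hVopen) ⟨hxW, hst.1⟩ inter_subset_right
      have h2 : H (A ∩ (W ∩ V)) ⊆ H (A ∩ W) :=
        hmono _ _ hWm (inter_subset_inter_right _ inter_subset_left)
      exact h2 (h1 ▸ hxH)
  rw [hkey]
  exact IsSigma2.iUnion_of_countable hSc fun V hV =>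
    (isSigma2_stab H A (hb.isOpen hV.1)).inter (hsig _ hV.2)

/-- Let `(H i)` be any family of monotone maps on the meager ideal with meager `Σ⁰₂` values such
that, for meager `A`, only countably many `H i A` are nonempty and they cover `A` (so that
`A ↦ ⋃ i, H i A` is a monotone `Σ⁰₂` hull operation on the meager ideal).  If moreover for every
meager `A` and real `x` each of the sequences `n ↦ H i (A ∩ (x - 1/(n+1), x + 1/(n+1)))` is
eventually constant, then there is a monotone `Σ⁰₂` hull operation on the algebra of all sets with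
the Baire property. -/
theorem result {I : Type*} (H : I → Set ℝ → Set ℝ)
    (hmono : ∀ i A B, IsMeagre B → A ⊆ B → H i A ⊆ H i B)
    (hsig : ∀ i A, IsMeagre A → IsSigma2 (H i A) ∧ IsMeagre (H i A))
    (hcount : ∀ A, IsMeagre A → {i | (H i A).Nonempty}.Countable)
    (hcover : ∀ A, IsMeagre A → A ⊆ ⋃ i, H i A)
    (hstab : ∀ i A, IsMeagre A → ∀ x : ℝ, ∃ N : ℕ, ∀ n ≥ N,
      H i (A ∩ Metric.ball x (1 / ((n : ℝ) + 1))) = H i (A ∩ Metric.ball x (1 / ((N : ℝ) + 1)))) :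
    ∃ ψ : Set ℝ → Set ℝ, IsMonotoneSigma2HullOnBaire ψ := by
  refine ⟨fun A => (mgOpen A)ᶜ ∪ ⋃ i, loc (H i) A, ?_, ?_⟩
  · intro A hA
    set T : Set I := {i | (H i (A ∩ mgOpen A)).Nonempty} with hT
    have hTc : T.Countable := hcount _ (isMeagre_inter_mgOpen A)
    have hU : (⋃ i, loc (H i) A) = ⋃ i ∈ T, loc (H i) A := by
      ext x
      simp only [mem_iUnion, exists_prop]
      constructor
      · rintro ⟨i, hi⟩
        exact ⟨i, ⟨x, loc_subset _ _ hi⟩, hi⟩
      · rintro ⟨i, -, hi⟩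
        exact ⟨i, hi⟩
    refine ⟨?_, ?_, ?_⟩
    · change IsSigma2 ((mgOpen A)ᶜ ∪ ⋃ i, loc (H i) A)
      rw [hU]
      refine (IsSigma2.of_isClosed (isOpen_mgOpen A).isClosed_compl).union ?_
      exact IsSigma2.iUnion_of_countable hTc fun i _ =>
        isSigma2_loc (hmono i) (fun B hB => (hsig i B hB).1) (hstab i) A
    · intro x hx
      by_cases hxG : x ∈ mgOpen A
      · right
        have hs : IsMeagre ({x} : Set ℝ) := by
          refine (isMeagre_inter_mgOpen A).mono ?_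
          rintro y rfl
          exact ⟨hx, hxG⟩
        obtain ⟨i, hi⟩ := mem_iUnion.mp (hcover {x} hs rfl)
        refine mem_iUnion.mpr ⟨i, hxG, fun W hW hxW hm => ?_⟩
        refine hmono i _ _ hm ?_ hi
        rintro y rfl
        exact ⟨hx, hxW⟩
      · exact Or.inl hxG
    · have h1 : IsMeagre (⋃ i ∈ T, loc (H i) A) :=
        isMeagre_biUnion hTc fun i _ =>
          ((hsig i _ (isMeagre_inter_mgOpen A)).2).mono (loc_subset _ _)
      refine ((isMeagre_compl_mgOpen_diff hA).union h1).mono ?_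
      rintro x ⟨hx | hx, hxA⟩
      · exact Or.inl ⟨hx, hxA⟩
      · rw [hU] at hx
        exact Or.inr hx
  · intro A B _ _ hAB x hx
    by_cases hxB : x ∈ mgOpen B
    · right
      rcases hx with hx | hx
      · exact absurd (mgOpen_anti hAB hxB) hx
      · obtain ⟨i, hi⟩ := mem_iUnion.mp hx
        exact mem_iUnion.mpr ⟨i, loc_mono (hmono i) hAB ⟨hi, hxB⟩⟩
    · exact Or.inl hxB

end Pool.Agent.Results.MP_a8a7e3_lc.StableHull
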